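import Pool.Agent.H76.SF.FIN2
import Pool.Agent.H76.SF.GRE
import Pool.Agent.H60.SF.Cont
import Pool.Agent.H78.SF.ONE
import Pool.Agent.H42.SF.OUT
import Pool.Agent.H33.SF.SPA
import Pool.Agent.H9.SF.TWO
import Pool.Agent.H85.SF.REG
import Pool.Agent.H99.SF.LOG

set_option autoImplicit false

/-!
# Ramsey numbers of star forests with a dominating star
-/

namespace Pool.Agent.Results.MP_705b7e_co.DominatingStar

open Classical

/-- Every colouring of the edges of the complete graph on `N` vertices with the colours red (`R`) and blue (`Rᶜ`)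
contains a monochromatic copy of `G` (as a subgraph, not necessarily induced). -/
def Arrows (N : ℕ) {V : Type} (G : SimpleGraph V) : Prop :=
  ∀ R : SimpleGraph (Fin N), G.IsContained R ∨ G.IsContained Rᶜ

/-- The diagonal Ramsey number `r(G)`. -/
noncomputable def ramseyNumber {V : Type} (G : SimpleGraph V) : ℕ :=
  sInf {N : ℕ | Arrows N G}

/-- The star forest with the stars `K_{1, s 0}, ..., K_{1, s (k-1)}`; the vertex `⟨i, none⟩` is the centre of the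
star number `i`, its leaves are `⟨i, some a⟩`. -/
def starForest (k : ℕ) (s : ℕ → ℕ) : SimpleGraph (Σ i : Fin k, Option (Fin (s i))) where
  Adj x y := x.1 = y.1 ∧ ((x.2 = none ∧ y.2 ≠ none) ∨ (x.2 ≠ none ∧ y.2 = none))
  symm := ⟨by
    rintro x y ⟨h1, h2⟩
    exact ⟨h1.symm, h2.elim (fun h => Or.inr ⟨h.2, h.1⟩) (fun h => Or.inl ⟨h.2, h.1⟩)⟩⟩
  loopless := ⟨by
    rintro x ⟨_, h⟩
    rcases h with h | h
    · exact h.2 h.1
    · exact h.1 h.2⟩

/-- Star forests with `k ≥ 2` stars of sizes `n_i = s (i-1)`, `s 0 ≥ ... ≥ s (k-1) ≥ 1`, and a dominating star,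
`s 0 ≥ 20 (k-1) (s 1 + 1)`: `2 n_1 + 1 ≤ r(F) ≤ 2 n_1 + k - 1`; for every `2 ≤ j ≤ k` with `n_j > j / 2` (`j` even or
`n_1` odd) `r(F) ≥ 2 n_1 + j - 1`; and `r(F) = 2 n_1 + k - 1` if `n_k > ⌊k / 2⌋` and `k` is even or `n_1` is odd. -/
theorem result :
    ∀ (k : ℕ) (s : ℕ → ℕ), 2 ≤ k → (∀ i j, i ≤ j → j < k → s j ≤ s i) → (∀ i < k, 1 ≤ s i) →
      20 * ((k - 1) * (s 1 + 1)) ≤ s 0 →
      2 * s 0 + 1 ≤ ramseyNumber (starForest k s) ∧
      (∀ j, 2 ≤ j → j ≤ k → j / 2 < s (j - 1) → (j % 2 = 0 ∨ s 0 % 2 = 1) →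
        2 * s 0 + (j - 1) ≤ ramseyNumber (starForest k s)) ∧
      ramseyNumber (starForest k s) ≤ 2 * s 0 + (k - 1) ∧
      (k / 2 < s (k - 1) → (k % 2 = 0 ∨ s 0 % 2 = 1) →
        ramseyNumber (starForest k s) = 2 * s 0 + (k - 1)) :=
  H76.SF.fin2 H60.SF.t_CON (H78.SF.t_ONE H1.SF.t_GRE (H33.SF.t_SPA H1.SF.t_GRE))
    (H9.SF.t_TWO (H33.SF.t_SPA H1.SF.t_GRE) (H42.SF.t_OUT H1.SF.t_GRE)) (H99.SF.LOG_proved H76.SF.t_REG)

end Pool.Agent.Results.MP_705b7e_co.DominatingStar
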